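import Pool.Agent.H164.GW.Dim3

/-!
# Sums of `k`-th powers with real coefficients: the dimension of the exceptional coefficients

The vector `θ = (θ_1, ..., θ_s)` of positive real numbers is said to represent all large numbers if
every large real number `t` is at distance smaller than `t ^ (- 1 / (40 k))` from a number
`θ_1 x_1 ^ k + ... + θ_s x_s ^ k` with positive integers `x_i`, and every large integer is the integer
part of such a number. (The problem is about the vector `(1, ..., 1)`.) The exceptional vectors form a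
set of Hausdorff dimension smaller than `s` for `s ≥ 2 k + 1`, and at most `100 k - 11` for `s = 100 k`.
-/

set_option autoImplicit false

open MeasureTheory

namespace Pool.Agent.Results.MP_570bef_nt.ExceptionalCoefficients

/-- All large numbers are represented by `θ_1 x_1 ^ k + ... + θ_s x_s ^ k`, `x_i` positive integers:
real numbers `t` up to an error smaller than `t ^ (- 1 / (40 k))`, and integers as integer parts. -/
def Represents (k : ℕ) {s : ℕ} (θ : Fin s → ℝ) : Prop :=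
  (∃ t₀ : ℝ, ∀ t : ℝ, t₀ ≤ t → ∃ x : Fin s → ℕ, (∀ i, 0 < x i) ∧
    |∑ i, θ i * (x i : ℝ) ^ k - t| < t ^ (-(1 / (40 * k : ℝ)))) ∧
  ∃ N₀ : ℕ, ∀ N : ℕ, N₀ ≤ N → ∃ x : Fin s → ℕ, (∀ i, 0 < x i) ∧
    ⌊∑ i, θ i * (x i : ℝ) ^ k⌋₊ = N

/-- The exceptional vectors of positive coefficients. -/
def Exceptional (k s : ℕ) : Set (Fin s → ℝ) := {θ | (∀ i, 0 < θ i) ∧ ¬ Represents k θ}

lemma represents_of_good {k s : ℕ} (hk : 2 ≤ k) {θ : Fin s → ℝ}
    (h : Pool.Agent.H164.GW.Good k θ) : Represents k θ := by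
  refine ⟨h, ?_⟩
  obtain ⟨t₀, ht₀⟩ := h
  have hk0 : (0 : ℝ) < k := by exact_mod_cast (by omega : 0 < k)
  have hexp : (0 : ℝ) < 1 / (40 * k : ℝ) := by positivity
  have hlim := (tendsto_rpow_neg_atTop hexp).eventually (gt_mem_nhds (by norm_num : (0 : ℝ) < 1 / 2))
  obtain ⟨t₁, ht₁⟩ := Filter.eventually_atTop.1 hlim
  obtain ⟨N₀, hN₀⟩ := exists_nat_ge (max t₀ t₁)
  refine ⟨N₀, fun N hN => ?_⟩
  have hN' : (N₀ : ℝ) ≤ N := by exact_mod_cast hN
  have h1 : t₀ ≤ (N : ℝ) + 1 / 2 := by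
    have := le_max_left t₀ t₁
    linarith
  have h2 : t₁ ≤ (N : ℝ) + 1 / 2 := by
    have := le_max_right t₀ t₁
    linarith
  obtain ⟨x, hx1, hx2⟩ := ht₀ _ h1
  refine ⟨x, hx1, ?_⟩
  have h3 := abs_lt.1 (hx2.trans (ht₁ _ h2))
  rw [Nat.floor_eq_iff (by linarith [h3.1, Nat.cast_nonneg (α := ℝ) N])]
  constructor <;> linarith [h3.1, h3.2]

/-- **Main result.** -/
theorem result (k : ℕ) (hk : 2 ≤ k) :
    (∀ s : ℕ, 2 * k + 1 ≤ s →
      dimH (Exceptional k s) ≤ ENNReal.ofReal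
        (s - min (8 * s - 38 : ℝ) (16 * s - 32 * k - 6) / (64 * k + 6)) ∧
      dimH (Exceptional k s) < s) ∧
    dimH (Exceptional k (100 * k)) ≤ ((100 * k - 11 : ℕ) : ENNReal) := by
  have hmain : ∀ s κ : ℕ, κ + 38 ≤ 8 * s → κ + 32 * k + 6 ≤ 16 * s →
      dimH (Exceptional k s) ≤ ENNReal.ofReal (s - κ / ((64 * k + 6 : ℕ) : ℝ)) := by
    intro s κ h1 h2
    refine (dimH_mono ?_).trans (Pool.Agent.H164.GW.dim_bad hk h1 h2)
    rintro θ ⟨hpos, hθ⟩
    exact ⟨hpos, fun hg => hθ (represents_of_good hk hg)⟩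
  have he0 : (0 : ℝ) < ((64 * k + 6 : ℕ) : ℝ) := by positivity
  refine ⟨fun s hs => ?_, ?_⟩
  · have h1 := hmain s (min (8 * s - 38) (16 * s - 32 * k - 6)) (by omega) (by omega)
    have e1 : ((min (8 * s - 38) (16 * s - 32 * k - 6) : ℕ) : ℝ) =
        min (8 * s - 38 : ℝ) (16 * s - 32 * k - 6) := by
      have a1 : ((8 * s - 38 : ℕ) : ℝ) = 8 * s - 38 := by
        rw [Nat.cast_sub (by omega)]
        push_cast
        rfl
      have a2 : ((16 * s - 32 * k - 6 : ℕ) : ℝ) = 16 * s - 32 * k - 6 := by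
        rw [Nat.cast_sub (by omega), Nat.cast_sub (by omega)]
        push_cast
        rfl
      rw [Nat.cast_min, a1, a2]
    refine ⟨?_, ?_⟩
    · rw [e1] at h1
      push_cast at h1
      exact h1
    · refine lt_of_le_of_lt h1 ?_
      have h2 : (0 : ℝ) < ((min (8 * s - 38) (16 * s - 32 * k - 6) : ℕ) : ℝ) := by
        exact_mod_cast (by omega : 0 < min (8 * s - 38) (16 * s - 32 * k - 6))
      have h3 : 0 < ((min (8 * s - 38) (16 * s - 32 * k - 6) : ℕ) : ℝ) / ((64 * k + 6 : ℕ) : ℝ) := by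
        positivity
      rw [← ENNReal.ofReal_natCast s]
      exact (ENNReal.ofReal_lt_ofReal_iff (by exact_mod_cast (by omega : 0 < s))).2 (by linarith)
  · have h1 := hmain (100 * k) (11 * (64 * k + 6)) (by omega) (by omega)
    refine h1.trans ?_
    rw [← ENNReal.ofReal_natCast]
    refine ENNReal.ofReal_le_ofReal (le_of_eq ?_)
    rw [Nat.cast_mul 11 (64 * k + 6), mul_div_assoc, div_self he0.ne', Nat.cast_sub (by omega)]
    push_cast
    ring

end Pool.Agent.Results.MP_570bef_nt.ExceptionalCoefficients
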