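import Mathlib
import Pool.Agent.H269.WG.Explicit

/-!
# An explicit local criterion for linear bounds in Waring's problem

If for every large `N` the sums of `s` `k`-th powers form a majority (`η > 1/2`) of some interval of length `≥ N ^ θ`
inside `[0, N ^ K]`, then every large integer is a sum of `2 s + c k` `k`-th powers, for every integer `c` with
`exp c > 4 K / θ`; here `c` does not depend on `k`. With `K = 1000`, `θ = 1 / 1000`, `η = 51 / 100` one may take
`c = 16`, so that `G(k) ≤ 100 k` follows for all `k ≥ 2` as soon as the sums of `42 k` `k`-th powers are locally a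
majority in this sense; and only exponents from a sparse set have to be treated with fewer powers.
-/

set_option autoImplicit false

namespace Pool.Agent.Results.MP_570bef_nt.MajorityCriterion

open Pool.Agent.H269.WG

/-- the local majority property: for every large `N` at least 51 percent of the elements of some interval
`[u, u + L)` with `u + L ≤ N ^ 1000` and `L ≥ N ^ (1/1000)` are sums of `s` `k`-th powers -/
def LocalMajority (k s : ℕ) : Prop := LocallyDense 1000 (51 / 100) (1 / 1000) k s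

theorem majority_sixteen (k s : ℕ) (hk : 1 ≤ k) (h : LocalMajority k s) : AllLarge k (2 * s + 16 * k) := by
  refine explicit 1000 (by norm_num) (51 / 100) (1 / 1000) (by norm_num) (by norm_num) 16 ?_ k hk s h
  have h1 : (2.7 : ℝ) < Real.exp 1 := lt_trans (by norm_num) Real.exp_one_gt_d9
  have h2 : Real.exp ((16 : ℕ) : ℝ) = Real.exp 1 ^ 16 := by
    rw [← Real.exp_nat_mul]
    norm_num
  rw [h2]
  calc 4 * ((1000 : ℕ) : ℝ) / (1 / 1000) < (2.7 : ℝ) ^ 16 := by norm_num
    _ ≤ Real.exp 1 ^ 16 := pow_le_pow_left₀ (by norm_num) h1.le 16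

theorem AllLarge.mono {k s t : ℕ} (hk : 1 ≤ k) (hst : s ≤ t) (h : AllLarge k s) : AllLarge k t := by
  obtain ⟨n₀, hn₀⟩ := h
  exact ⟨n₀, fun n hn => (hn₀ n hn).mono hk hst⟩

/-- **Main theorem.** (1) The general explicit criterion. (2) For all `k ≥ 1`: `G(k) ≤ s` implies the local majority
property for `s`, which implies `G(k) ≤ 2 s + 16 k`. (3) If `(2 C + 16) M ≤ 100` and `E` is a set of exponents such
that every `k ≥ 2` has a multiple `j k ∈ E` with `1 ≤ j ≤ M`, and the sums of `C k` `k`-th powers have the local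
majority property for all `k ∈ E`, then `G(k) ≤ 100 k` for all `k ≥ 2`. (4) In particular the local majority
property of the sums of `42 k` `k`-th powers for all `k ≥ 2` is enough. -/
theorem result :
    (∀ (K : ℕ) (η θ : ℝ) (c : ℕ), 1 ≤ K → 1 / 2 < η → 0 < θ → 4 * (K : ℝ) / θ < Real.exp c →
      ∀ k s : ℕ, 1 ≤ k → LocallyDense K η θ k s → AllLarge k (2 * s + c * k)) ∧
    (∀ k s : ℕ, 1 ≤ k → (AllLarge k s → LocalMajority k s) ∧
      (LocalMajority k s → AllLarge k (2 * s + 16 * k))) ∧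
    (∀ (C M : ℕ) (E : Set ℕ), (2 * C + 16) * M ≤ 100 →
      (∀ k : ℕ, 2 ≤ k → ∃ j, 1 ≤ j ∧ j ≤ M ∧ j * k ∈ E) → (∀ k ∈ E, LocalMajority k (C * k)) →
        ∀ k : ℕ, 2 ≤ k → AllLarge k (100 * k)) ∧
    ((∀ k : ℕ, 2 ≤ k → LocalMajority k (42 * k)) → ∀ k : ℕ, 2 ≤ k → AllLarge k (100 * k)) := by
  have h3 : ∀ (C M : ℕ) (E : Set ℕ), (2 * C + 16) * M ≤ 100 →
      (∀ k : ℕ, 2 ≤ k → ∃ j, 1 ≤ j ∧ j ≤ M ∧ j * k ∈ E) → (∀ k ∈ E, LocalMajority k (C * k)) →
        ∀ k : ℕ, 2 ≤ k → AllLarge k (100 * k) := by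
    intro C M E hCM hE hmaj k hk
    obtain ⟨j, hj1, hj2, hj3⟩ := hE k hk
    have hjk : 1 ≤ j * k := Nat.mul_pos (by omega) (by omega)
    obtain ⟨n₀, hn₀⟩ := majority_sixteen (j * k) _ hjk (hmaj _ hj3)
    refine AllLarge.mono (by omega) (s := 2 * (C * (j * k)) + 16 * (j * k)) ?_ ⟨n₀, fun n hn => ?_⟩
    · calc 2 * (C * (j * k)) + 16 * (j * k) = (2 * C + 16) * j * k := by ring
        _ ≤ (2 * C + 16) * M * k := Nat.mul_le_mul_right _ (Nat.mul_le_mul_left _ hj2)
        _ ≤ 100 * k := Nat.mul_le_mul_right _ hCM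
    · obtain ⟨x, hx⟩ := hn₀ n hn
      refine ⟨fun i => x i ^ j, ?_⟩
      rw [hx]
      refine Finset.sum_congr rfl fun i _ => ?_
      rw [pow_mul]
  refine ⟨fun K η θ c hK hη hθ hc k s hk h => explicit K hK η θ hη hθ c hc k hk s h,
    fun k s hk => ⟨locallyDense_of_allLarge 1000 (by norm_num) _ _ (by norm_num) (by norm_num) k s,
      majority_sixteen k s hk⟩, h3, fun h => ?_⟩
  exact h3 42 1 {k | 2 ≤ k} (by norm_num) (fun k hk => ⟨1, le_rfl, le_rfl, by simpa using hk⟩)
    (fun k hk => h k hk)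

end Pool.Agent.Results.MP_570bef_nt.MajorityCriterion
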