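import Mathlib
import Pool.Agent.V11298.WA.Cor

/-!
# Waring's problem with randomly perturbed `k`-th powers: a linear number of summands

Let `1 ≤ d ≤ k`. For almost all functions `t` on `[P, 2 P)` with values in `{0, ..., P ^ d - 1}` all
integers `N` of the long interval from `(8 (d + 1) P) ^ k` to `(16 (d + 1) P) ^ k` are sums of
`d + 1` perturbed powers `n ^ k + t n`, with different `n` in `[P, 2 P)`, and of `s` exact `k`-th
powers, as soon as `k (1 - 1 / k) ^ s < d`. With `d = ⌈ε k⌉` the number of all summands is at most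
`(ε + log (1 / ε)) k + 3`, linear in `k` for fixed `ε`; with `ε = exp (-90)` it is at most `100 k`.
So there are also perturbations `τ` with `0 ≤ τ n ≤ n ^ d` for which all large integers are such
sums.

Outline: the greedy algorithm approximates `N - ∑ n_i ^ k` by sums of `s` exact powers up to
`P ^ d / 4`, for all choices of `n_1, ..., n_(d+1)`. The sum of the perturbations has to be equal to
the remaining number, which depends on the choice. For the choices with `n_i` in given disjoint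
blocks of about `P ^ (1 - β)` integers, `β = 1 / (2 d + 2)`, the second moment method shows that this
happens for some choice with probability bounded from below: two different choices have different
`n_i` for some `i`, so the two events have probability at most `P ^ (-2 d)` together. There are about
`P ^ β` groups of blocks, which are independent.
-/

set_option autoImplicit false

open Finset Filter Topology
open Pool.Agent.V11298.WA

namespace Pool.Agent.Results.MP_570bef_nt.PerturbedPowers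

open Classical in
/-- For almost all functions `t` on `[P, 2 P)` with `0 ≤ t n < P ^ d`, all integers `N` between
`(8 (d + 1) P) ^ k` and `(16 (d + 1) P) ^ k` are sums of `d + 1` perturbed powers `n ^ k + t n` and
`s` exact powers (`Rep`, see `Pool/Agent/V11298/WA/Mai.lean`). -/
def AlmostAll (k d s : ℕ) : Prop :=
  ∃ c : ℝ, 0 < c ∧ ∃ P₀ : ℕ, ∀ P : ℕ, P₀ ≤ P →
    ((univ.filter fun t : Fin P → Fin (P ^ d) =>
      ∃ N : ℕ, (8 * (d + 1) * P) ^ k ≤ N ∧ N ≤ (16 * (d + 1) * P) ^ k ∧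
        ¬ Rep k (d + 1) s P (P ^ d) t N).card : ℝ) ≤
      Real.exp (-(c * (P : ℝ) ^ (1 / (2 * (d : ℝ) + 2)))) * ((P : ℝ) ^ d) ^ P

/-- There is a function `τ` with `0 ≤ τ n ≤ n ^ d` such that all large integers are sums of `d + 1`
perturbed powers `n ^ k + τ n` with different `n` and `s` exact powers. -/
def Exists (k d s : ℕ) : Prop :=
  ∃ τ : ℕ → ℕ, (∀ n, τ n ≤ n ^ d) ∧ ∃ N₀ : ℕ, ∀ N, N₀ ≤ N →
    ∃ (n : Fin (d + 1) → ℕ) (g : Fin s → ℕ), Function.Injective n ∧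
      ∑ i, (n i ^ k + τ (n i)) + ∑ j, g j ^ k = N

theorem result :
    (∀ k d s : ℕ, 1 ≤ d → d ≤ k → (k : ℝ) * (1 - 1 / (k : ℝ)) ^ s < d →
      AlmostAll k d s ∧ Exists k d s) ∧
    (∀ k : ℕ, 1 ≤ k → ∀ ε : ℝ, 0 < ε → ε ≤ 1 → ∃ s : ℕ,
      AlmostAll k ⌈ε * k⌉₊ s ∧ Exists k ⌈ε * k⌉₊ s ∧
      ((⌈ε * k⌉₊ + 1 + s : ℕ) : ℝ) ≤ (ε + Real.log (1 / ε)) * k + 3) ∧
    (∀ k : ℕ, 1 ≤ k → ∃ s : ℕ,
      AlmostAll k ⌈Real.exp (-90) * k⌉₊ s ∧ Exists k ⌈Real.exp (-90) * k⌉₊ s ∧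
      ⌈Real.exp (-90) * k⌉₊ + 1 + s ≤ 100 * k) := by
  have h1 : ∀ k d s : ℕ, 1 ≤ d → d ≤ k → (k : ℝ) * (1 - 1 / (k : ℝ)) ^ s < d →
      AlmostAll k d s ∧ Exists k d s := by
    intro k d s hd hdk hs
    refine ⟨?_, exists_perturbation hd hdk hs⟩
    obtain ⟨c, hc, hev⟩ := main hd hdk hs
    exact ⟨c, hc, eventually_atTop.1 hev⟩
  have h2 : ∀ k : ℕ, 1 ≤ k → ∀ ε : ℝ, 0 < ε → ε ≤ 1 → ∃ s : ℕ,
      AlmostAll k ⌈ε * k⌉₊ s ∧ Exists k ⌈ε * k⌉₊ s ∧
      ((⌈ε * k⌉₊ + 1 + s : ℕ) : ℝ) ≤ (ε + Real.log (1 / ε)) * k + 3 := by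
    intro k hk ε h0 h1'
    obtain ⟨p1, p2, p3, p4⟩ := params hk h0 h1'
    obtain ⟨q1, q2⟩ := h1 k ⌈ε * k⌉₊ (⌊k * Real.log (1 / ε)⌋₊ + 1) p1 p2 p3
    exact ⟨_, q1, q2, p4⟩
  refine ⟨h1, h2, fun k hk => ?_⟩
  have he : Real.exp (-90) ≤ 1 := Real.exp_le_one_iff.2 (by norm_num)
  obtain ⟨s, q1, q2, q3⟩ := h2 k hk (Real.exp (-90)) (Real.exp_pos _) he
  refine ⟨s, q1, q2, ?_⟩
  have hlog : Real.log (1 / Real.exp (-90)) = 90 := by
    rw [one_div, ← Real.exp_neg, Real.log_exp]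
    norm_num
  rw [hlog] at q3
  have hk1 : (1 : ℝ) ≤ k := by exact_mod_cast hk
  have h3 : ((⌈Real.exp (-90) * k⌉₊ + 1 + s : ℕ) : ℝ) ≤ ((100 * k : ℕ) : ℝ) := by
    push_cast at q3 ⊢
    nlinarith
  exact_mod_cast h3

end Pool.Agent.Results.MP_570bef_nt.PerturbedPowers
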